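import Pool.Agent.H47S.Xc4c6a0Rotor

namespace Pool.Agent.Results.MP_c4c6a0_pr.Balanced

open Set MeasureTheory ProbabilityTheory Filter Topology
open Pool.Agent.Results.MP_c4c6a0_pr.Rotor

theorem result :
    (∀ d L : ℕ, 3 ≤ d → 0 < L → ∀ a : ℕ → Fin (d + 1), Nondeg a → Function.Periodic a L →
      ((∀ r, Nat.count (a · = r) L * (d + 1) = L) ∨ 4 * Nat.count (a · = 0) L ≤ L) →
      ∀ᵐ k ∂μ d L, ¬ Rec fun v x => a (x + k v)) :=
  parts.1

end Pool.Agent.Results.MP_c4c6a0_pr.Balanced
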