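import Pool.Agent.H47S.Xc4c6a0Rotor

namespace Pool.Agent.Results.MP_c4c6a0_pr.Literal

open Set MeasureTheory ProbabilityTheory Filter Topology
open Pool.Agent.Results.MP_c4c6a0_pr.Rotor

theorem result :
    ∃ a : ℕ → Fin (3 + 1), Nondeg a ∧ Function.Periodic a 10 ∧
      ∀ᵐ k ∂μ 3 10, Rec fun v x => a (x + k v) :=
  parts.2

end Pool.Agent.Results.MP_c4c6a0_pr.Literal
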